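import Mathlib

namespace Pool.Agent.Results.MP_541980_co.Evil

/-- Short partizan game forms; player true is Left, false is Right; player p has n p options. -/
inductive Game : Type
  | mk (n : Bool → ℕ) (o : ∀ p : Bool, Fin (n p) → Game) : Game

/-- H is an option of G for player p. -/
def Opt (p : Bool) : Game → Game → Prop
  | .mk _ o, H => ∃ i, o p i = H

/-- Disjunctive sum. -/
noncomputable def add (G : Game) : Game → Game :=
  Game.rec (motive := fun _ => Game → Game) (fun n _ ih H =>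
    Game.rec (motive := fun _ => Game) (fun m q ih' =>
      Game.mk (fun p => n p + m p) fun p =>
        Fin.addCases (fun i => ih p i (Game.mk m q)) fun j => ih' p j) H) G

def zero : Game := .mk (fun _ => 0) fun _ i => i.elim0

def star : Game := .mk (fun _ => 1) fun _ _ => zero

/-- Player p wins moving first; a player who cannot move wins iff mis is true. -/
def wins (mis : Bool) : Game → Bool → Bool
  | .mk n o, p => (n p == 0 && mis) || (List.finRange (n p)).any fun i => !wins mis (o p i) (!p)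

/-- Outcome class: who wins moving first. -/
def out (mis : Bool) (G : Game) : Bool × Bool := (wins mis G true, wins mis G false)

def Dicot : Game → Prop
  | .mk n o => (n true = 0 ↔ n false = 0) ∧ ∀ p i, Dicot (o p i)

/-- Identity of game forms (same sets of options, hereditarily). -/
def Ident : Game → Game → Prop
  | .mk _ o, .mk _ q => ∀ p, (∀ i, ∃ j, Ident (o p i) (q p j)) ∧ ∀ j, ∃ i, Ident (o p i) (q p j)

def Respects (A : Set Game) : Prop := ∀ G H, Ident G H → G ∈ A → H ∈ A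

def Closed (A : Set Game) : Prop :=
  (∀ G ∈ A, ∀ H ∈ A, add G H ∈ A) ∧ ∀ G ∈ A, ∀ p H, Opt p G H → H ∈ A

def EvilKernel (A K : Set Game) : Prop :=
  K ⊆ A ∧ (∀ G ∈ K, out false G = out true G) ∧
    ∀ G ∈ A, G ∉ K → out false G = out true (add G star) ∧ out false (add G star) = out true G

def EvillyNormal (A K : Set Game) : Prop :=
  (∀ G ∈ A, Dicot G) ∧ Closed A ∧ EvilKernel A K ∧
    ∀ G ∈ A, ∀ H ∈ A, add G H ∉ K ↔ G ∉ K ∧ H ∉ K

def Invertible (G : Game) : Prop :=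
  Dicot G ∧ ∃ H, Dicot H ∧ ∀ X, Dicot X → out true (add (add G H) X) = out true (add zero X)

theorem ind {P : Game → Prop} (h : ∀ G, (∀ p H, Opt p G H → P H) → P G) (G : Game) : P G := by
  induction G with
  | mk n o ih => exact h _ fun p H ⟨i, e⟩ => e ▸ ih p i

theorem opt_add (p : Bool) (G H W : Game) : Opt p (add G H) W ↔
    (∃ G', Opt p G G' ∧ W = add G' H) ∨ ∃ H', Opt p H H' ∧ W = add G H' := by
  obtain ⟨n, o⟩ := G
  obtain ⟨m, q⟩ := H
  change (∃ i : Fin (n p + m p), Fin.addCases (motive := fun _ => Game)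
    (fun i => add (o p i) (Game.mk m q)) (fun j => add (Game.mk n o) (q p j)) i = W) ↔ _
  constructor
  · rintro ⟨i, rfl⟩
    induction i using Fin.addCases with
    | left i => exact Or.inl ⟨_, ⟨i, rfl⟩, by simp⟩
    | right j => exact Or.inr ⟨_, ⟨j, rfl⟩, by simp⟩
  · rintro (⟨_, ⟨i, rfl⟩, rfl⟩ | ⟨_, ⟨j, rfl⟩, rfl⟩)
    · exact ⟨Fin.castAdd _ i, by simp⟩
    · exact ⟨Fin.natAdd _ j, by simp⟩

theorem no_opt (n o) (p : Bool) : (∀ W, ¬ Opt p (.mk n o) W) ↔ n p = 0 := by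
  constructor
  · intro h
    by_contra h'
    exact h _ ⟨⟨0, Nat.pos_of_ne_zero h'⟩, rfl⟩
  · rintro h W ⟨i, -⟩
    have := i.2
    omega

theorem wins_iff (mis : Bool) (G : Game) (p : Bool) : wins mis G p = true ↔
    ((∀ W, ¬ Opt p G W) ∧ mis = true) ∨ ∃ W, Opt p G W ∧ ¬ wins mis W (!p) = true := by
  obtain ⟨n, o⟩ := G
  rw [no_opt, wins]
  simp [Opt]

theorem dicot_iff (G : Game) : Dicot G ↔
    ((∀ W, ¬ Opt true G W) ↔ ∀ W, ¬ Opt false G W) ∧ ∀ p W, Opt p G W → Dicot W := by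
  obtain ⟨n, o⟩ := G
  rw [no_opt, no_opt, Dicot]
  simp [Opt]

def conj : Game → Game
  | .mk n o => .mk (fun p => n (!p)) fun p i => conj (o (!p) i)

theorem opt_conj (p : Bool) (G W : Game) : Opt p (conj G) W ↔ ∃ H, Opt (!p) G H ∧ W = conj H := by
  obtain ⟨n, o⟩ := G
  simp [conj, Opt, eq_comm]

def Good : Game → Prop
  | .mk n o => (∀ p, wins true (add (.mk n o) (conj (.mk n o))) p = true) ∧ ∀ p i, Good (o p i)

theorem good_opt {G H : Game} {p : Bool} (h : Good G) (e : Opt p G H) : Good H := by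
  obtain ⟨n, o⟩ := G
  obtain ⟨i, rfl⟩ := e
  exact h.2 p i

theorem good_wins {G : Game} (h : Good G) (p : Bool) : wins true (add G (conj G)) p = true := by
  obtain ⟨n, o⟩ := G
  exact h.1 p

theorem add_end (X : Game) (hX : ∀ p W, ¬ Opt p X W) (Y : Game) :
    ∀ p, wins true (add Y X) p = true ↔ wins true Y p = true := by
  induction Y using ind with
  | h Y ih =>
  intro p
  rw [wins_iff, wins_iff]
  simp only [opt_add, hX, false_and, exists_false, or_false]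
  constructor
  · rintro (⟨h, -⟩ | ⟨_, ⟨W, h, rfl⟩, h'⟩)
    · exact Or.inl ⟨fun W hW => h _ ⟨W, hW, rfl⟩, trivial⟩
    · exact Or.inr ⟨W, h, (ih p W h _).not.1 h'⟩
  · rintro (⟨h, -⟩ | ⟨W, h, h'⟩)
    · exact Or.inl ⟨fun _ ⟨W, hW, _⟩ => h W hW, trivial⟩
    · exact Or.inr ⟨_, ⟨W, h, rfl⟩, (ih p W h _).not.2 h'⟩

theorem mirror (X : Game) : Dicot X → ∀ G, Good G → ∀ p,
    wins true (add (add G (conj G)) X) p = true ↔ wins true X p = true := by
  induction X using ind with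
  | h X ihX =>
  intro hX
  rw [dicot_iff] at hX
  have A : ∀ G, Good G → ∀ p, wins true X p = true →
      wins true (add (add G (conj G)) X) p = true := by
    intro G hG p h
    rcases (wins_iff _ _ _).1 h with ⟨h, -⟩ | ⟨W, h, h'⟩
    · have : ∀ p W, ¬ Opt p X W := by
        intro q
        cases p <;> cases q
        exacts [h, hX.1.2 h, hX.1.1 h, h]
      exact (add_end X this _ p).2 (good_wins hG p)
    · exact (wins_iff _ _ _).2 (Or.inr ⟨_, (opt_add _ _ _ _).2 (Or.inr ⟨W, h, rfl⟩),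
        (ihX p W h (hX.2 p W h) G hG _).not.2 h'⟩)
  intro G
  induction G using ind with
  | h G ihG =>
  intro hG p
  refine ⟨fun h => ?_, A G hG p⟩
  by_contra hn
  rcases (wins_iff _ _ _).1 h with ⟨h, -⟩ | ⟨W, h, h'⟩
  · exact hn ((wins_iff _ _ _).2 (Or.inl
      ⟨fun W hW => h _ ((opt_add _ _ _ _).2 (Or.inr ⟨W, hW, rfl⟩)), rfl⟩))
  · obtain ⟨Y, hY, rfl⟩ | ⟨Y, hY, rfl⟩ := (opt_add _ _ _ _).1 h
    · apply h'
      rw [wins_iff]
      clear h
      obtain ⟨Z, h, rfl⟩ | ⟨Z, h, rfl⟩ := (opt_add _ _ _ _).1 hY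
      · refine Or.inr ⟨add (add Z (conj Z)) X, (opt_add _ _ _ _).2 (Or.inl ⟨_, (opt_add _ _ _ _).2
          (Or.inr ⟨_, (opt_conj _ _ _).2 ⟨Z, by simpa using h, rfl⟩, rfl⟩), rfl⟩), ?_⟩
        rw [Bool.not_not, ihG p Z h (good_opt hG h)]
        exact hn
      · obtain ⟨Z, h2, rfl⟩ := (opt_conj _ _ _).1 h
        refine Or.inr ⟨add (add Z (conj Z)) X, (opt_add _ _ _ _).2 (Or.inl ⟨_, (opt_add _ _ _ _).2
          (Or.inl ⟨_, h2, rfl⟩), rfl⟩), ?_⟩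
        rw [Bool.not_not, ihG _ Z h2 (good_opt hG h2)]
        exact hn
    · exact hn ((wins_iff _ _ _).2 (Or.inr ⟨Y, hY, (ihX p Y hY (hX.2 p Y hY) G hG _).not.1 h'⟩))

def Mv (p : Bool) (s t : ℕ × ℕ × ℕ) : Prop :=
  (s.1 = t.1 + 1 ∧ s.2.1 = t.2.1 ∧ s.2.2 = t.2.2) ∨ (s.1 = t.1 ∧ s.2.1 = t.2.1 + 1 ∧ s.2.2 = t.2.2) ∨
  (p = true ∧ s.1 = t.1 + 1 ∧ s.2.1 + 1 = t.2.1 ∧ s.2.2 = t.2.2) ∨
  (p = true ∧ s.1 = t.1 ∧ s.2.1 = t.2.1 ∧ s.2.2 = t.2.2 + 1) ∨
  (p = true ∧ s.1 = t.1 ∧ s.2.1 + 1 = t.2.1 ∧ s.2.2 = t.2.2 + 1) ∨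
  (p = false ∧ s.1 + 1 = t.1 ∧ s.2.1 = t.2.1 ∧ s.2.2 = t.2.2 + 1)

def Is : Game → ℕ × ℕ × ℕ → Prop
  | .mk _ o, s => ∀ p, (∀ i, ∃ t, Mv p s t ∧ Is (o p i) t) ∧ ∀ t, Mv p s t → ∃ i, Is (o p i) t

theorem is_iff (G : Game) (s : ℕ × ℕ × ℕ) : Is G s ↔ ∀ p,
    (∀ W, Opt p G W → ∃ t, Mv p s t ∧ Is W t) ∧ ∀ t, Mv p s t → ∃ W, Opt p G W ∧ Is W t := by
  obtain ⟨n, o⟩ := G
  simp [Is, Opt]

theorem mv_add (p : Bool) (s t u : ℕ × ℕ × ℕ) : Mv p (s + t) u ↔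
    (∃ s', Mv p s s' ∧ u = s' + t) ∨ ∃ t', Mv p t t' ∧ u = s + t' := by
  obtain ⟨a, b, c⟩ := s
  obtain ⟨a', b', c'⟩ := t
  obtain ⟨x, y, z⟩ := u
  simp only [Mv, Prod.mk_add_mk, Prod.exists, Prod.mk.injEq]
  constructor
  · rintro (h | h | ⟨hp, h⟩ | ⟨hp, h⟩ | ⟨hp, h⟩ | ⟨hp, h⟩)
    · by_cases h0 : 0 < a
      · exact Or.inl ⟨x - a', y - b', z - c', Or.inl (by omega), by omega⟩
      · exact Or.inr ⟨x - a, y - b, z - c, Or.inl (by omega), by omega⟩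
    · by_cases h0 : 0 < b
      · exact Or.inl ⟨x - a', y - b', z - c', Or.inr (Or.inl (by omega)), by omega⟩
      · exact Or.inr ⟨x - a, y - b, z - c, Or.inr (Or.inl (by omega)), by omega⟩
    · by_cases h0 : 0 < a
      · exact Or.inl ⟨x - a', y - b', z - c', Or.inr (Or.inr (Or.inl ⟨hp, by omega⟩)), by omega⟩
      · exact Or.inr ⟨x - a, y - b, z - c, Or.inr (Or.inr (Or.inl ⟨hp, by omega⟩)), by omega⟩
    · by_cases h0 : 0 < c
      · exact Or.inl ⟨x - a', y - b', z - c', Or.inr (Or.inr (Or.inr (Or.inl ⟨hp, by omega⟩))), by omega⟩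
      · exact Or.inr ⟨x - a, y - b, z - c, Or.inr (Or.inr (Or.inr (Or.inl ⟨hp, by omega⟩))), by omega⟩
    · by_cases h0 : 0 < c
      · exact Or.inl ⟨x - a', y - b', z - c', Or.inr (Or.inr (Or.inr (Or.inr (Or.inl ⟨hp, by omega⟩)))), by omega⟩
      · exact Or.inr ⟨x - a, y - b, z - c, Or.inr (Or.inr (Or.inr (Or.inr (Or.inl ⟨hp, by omega⟩)))), by omega⟩
    · by_cases h0 : 0 < c
      · exact Or.inl ⟨x - a', y - b', z - c', Or.inr (Or.inr (Or.inr (Or.inr (Or.inr (⟨hp, by omega⟩))))), by omega⟩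
      · exact Or.inr ⟨x - a, y - b, z - c, Or.inr (Or.inr (Or.inr (Or.inr (Or.inr (⟨hp, by omega⟩))))), by omega⟩
  · rintro (⟨_, _, _, h, h'⟩ | ⟨_, _, _, h, h'⟩) <;>
    · rcases h with h | h | ⟨hp, h⟩ | ⟨hp, h⟩ | ⟨hp, h⟩ | ⟨hp, h⟩
      · exact Or.inl (by omega)
      · exact Or.inr (Or.inl (by omega))
      · exact Or.inr (Or.inr (Or.inl ⟨hp, by omega⟩))
      · exact Or.inr (Or.inr (Or.inr (Or.inl ⟨hp, by omega⟩)))
      · exact Or.inr (Or.inr (Or.inr (Or.inr (Or.inl ⟨hp, by omega⟩))))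
      · exact Or.inr (Or.inr (Or.inr (Or.inr (Or.inr (⟨hp, by omega⟩)))))

theorem is_add (G : Game) : ∀ s, Is G s → ∀ H t, Is H t → Is (add G H) (s + t) := by
  induction G using ind with
  | h G ihG =>
  intro s hs H
  induction H using ind with
  | h H ihH =>
  intro t ht
  have hs' := (is_iff _ _).1 hs
  have ht' := (is_iff _ _).1 ht
  rw [is_iff]
  refine fun p => ⟨fun W hW => ?_, fun u hu => ?_⟩
  · rcases (opt_add _ _ _ _).1 hW with ⟨Y, h, rfl⟩ | ⟨Y, h, rfl⟩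
    · obtain ⟨s', h1, h2⟩ := (hs' p).1 Y h
      exact ⟨_, (mv_add _ _ _ _).2 (Or.inl ⟨s', h1, rfl⟩), ihG p Y h s' h2 H t ht⟩
    · obtain ⟨t', h1, h2⟩ := (ht' p).1 Y h
      exact ⟨_, (mv_add _ _ _ _).2 (Or.inr ⟨t', h1, rfl⟩), ihH p Y h t' h2⟩
  · rcases (mv_add _ _ _ _).1 hu with ⟨s', h, rfl⟩ | ⟨t', h, rfl⟩
    · obtain ⟨Y, h1, h2⟩ := (hs' p).2 s' h
      exact ⟨_, (opt_add _ _ _ _).2 (Or.inl ⟨Y, h1, rfl⟩), ihG p Y h1 s' h2 H t ht⟩
    · obtain ⟨Y, h1, h2⟩ := (ht' p).2 t' h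
      exact ⟨_, (opt_add _ _ _ _).2 (Or.inr ⟨Y, h1, rfl⟩), ihH p Y h1 t' h2⟩

theorem is_ident (G : Game) : ∀ H s, Ident G H → Is G s → Is H s := by
  induction G with
  | mk n o ih =>
  rintro ⟨m, q⟩ s h hs p
  refine ⟨fun j => ?_, fun t ht => ?_⟩
  · obtain ⟨i, hi⟩ := (h p).2 j
    obtain ⟨t, h1, h2⟩ := (hs p).1 i
    exact ⟨t, h1, ih p i _ t hi h2⟩
  · obtain ⟨i, hi⟩ := (hs p).2 t ht
    obtain ⟨j, hj⟩ := (h p).1 i
    exact ⟨j, ih p i _ t hj hi⟩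

theorem mv_le (s t : ℕ × ℕ × ℕ) (h : ∀ p u, Mv p s u → Mv p t u) (h0 : s ≠ 0) :
    s.1 + s.2.1 + 2 * s.2.2 = t.1 + t.2.1 + 2 * t.2.2 ∧
    t.1 + t.2.1 + t.2.2 ≤ s.1 + s.2.1 + s.2.2 ∧
    2 * s.1 + s.2.1 + 2 * s.2.2 ≤ 2 * t.1 + t.2.1 + 2 * t.2.2 := by
  obtain ⟨a, b, c⟩ := s
  obtain ⟨x, y, z⟩ := t
  rcases a with _ | a
  · rcases b with _ | b
    · rcases c with _ | c
      · exact absurd rfl h0
      · have h1 := h false (1, 0, c)
        have h2 := h true (0, 0, c)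
        have h3 := h true (0, 1, c)
        simp [Mv] at h1 h2 h3 ⊢
        omega
    · have h1 := h false (0, b, c)
      have h2 := h true (0, b, c)
      simp [Mv] at h1 h2 ⊢
      omega
  · have h1 := h false (a, b, c)
    have h2 := h true (a, b, c)
    have h3 := h true (a, b + 1, c)
    simp [Mv] at h1 h2 h3 ⊢
    omega

theorem mv_ex (p : Bool) (s : ℕ × ℕ × ℕ) : (∃ t, Mv p s t) ↔ s ≠ 0 := by
  obtain ⟨a, b, c⟩ := s
  constructor
  · rintro ⟨t, h⟩ e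
    rw [e] at h
    cases p <;> simp [Mv] at h
  · intro h
    by_contra hn
    push Not at hn
    have h1 := hn (a - 1, b, c)
    have h2 := hn (a, b - 1, c)
    have h3 := hn (a, b, c - 1)
    have h4 := hn (a + 1, b, c - 1)
    cases p <;> simp [Mv, Prod.ext_iff] at h h1 h2 h3 h4 <;> omega

theorem is_uniq (G : Game) : ∀ s t, Is G s → Is G t → s = t := by
  induction G using ind with
  | h G ih =>
  have key : ∀ s t, Is G s → Is G t → ∀ p u, Mv p s u → Mv p t u := by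
    intro s t hs ht p u hu
    obtain ⟨W, h1, h2⟩ := ((is_iff _ _).1 hs p).2 u hu
    obtain ⟨u', h3, h4⟩ := ((is_iff _ _).1 ht p).1 W h1
    exact ih p W h1 _ _ h2 h4 ▸ h3
  intro s t hs ht
  by_cases h0 : s = 0
  · by_contra hn
    obtain ⟨u, hu⟩ := (mv_ex true t).2 fun h => hn (h0.trans h.symm)
    exact (mv_ex true s).1 ⟨u, key t s ht hs _ _ hu⟩ h0
  · obtain ⟨u, hu⟩ := (mv_ex true s).2 h0
    have h1 := mv_le s t (key s t hs ht) h0
    have h2 := mv_le t s (key t s ht hs) ((mv_ex true t).1 ⟨u, key s t hs ht _ _ hu⟩)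
    ext <;> omega

def W (mis : Bool) (s : ℕ × ℕ × ℕ) (p : Bool) : Prop :=
  if p then ¬ (s.1 = 0 ∧ s.2.2 = 0 ∧ (s.2.1 + mis.toNat) % 2 = 0)
  else s.2.2 = 0 ∧ s.1 ≤ 1 ∧ (s.1 + s.2.1 + mis.toNat) % 2 = 1

theorem W_iff (mis : Bool) (s : ℕ × ℕ × ℕ) (p : Bool) :
    W mis s p ↔ (s = 0 ∧ mis = true) ∨ ∃ t, Mv p s t ∧ ¬ W mis t (!p) := by
  obtain ⟨a, b, c⟩ := s
  constructor
  · intro h
    by_contra hn
    push Not at hn
    obtain ⟨h0, hn⟩ := hn
    have h1 := hn (a - 1, b, c)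
    have h2 := hn (a, b - 1, c)
    have h3 := hn (a, b, c - 1)
    have h4 := hn (a - 1, b + 1, c)
    have h5 := hn (a, b + 1, c - 1)
    cases p <;> cases mis <;> simp [Mv, W, Prod.ext_iff] at h h0 h1 h2 h3 h4 h5 <;> omega
  · rintro (⟨h, rfl⟩ | ⟨⟨x, y, z⟩, h, h'⟩)
    · rw [h]
      cases p <;> simp [W]
    · cases p <;> cases mis <;> simp [Mv, W] at h h' ⊢ <;> omega

theorem is_end {G : Game} {s : ℕ × ℕ × ℕ} (h : Is G s) (p : Bool) :
    (∀ W, ¬ Opt p G W) ↔ s = 0 := by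
  rw [← not_iff_not]
  refine Iff.trans ?_ (mv_ex p s)
  push Not
  constructor
  · rintro ⟨W, hW⟩
    obtain ⟨t, h1, -⟩ := ((is_iff _ _).1 h p).1 W hW
    exact ⟨t, h1⟩
  · rintro ⟨t, ht⟩
    obtain ⟨W, h1, -⟩ := ((is_iff _ _).1 h p).2 t ht
    exact ⟨W, h1⟩

theorem is_wins (mis : Bool) (G : Game) : ∀ s, Is G s → ∀ p, wins mis G p = true ↔ W mis s p := by
  induction G using ind with
  | h G ih =>
  intro s hs p
  rw [wins_iff, W_iff, is_end hs]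
  refine or_congr Iff.rfl ⟨?_, ?_⟩
  · rintro ⟨Y, h1, h2⟩
    obtain ⟨t, h3, h4⟩ := ((is_iff _ _).1 hs p).1 Y h1
    exact ⟨t, h3, (ih p Y h1 t h4 _).not.1 h2⟩
  · rintro ⟨t, h1, h2⟩
    obtain ⟨Y, h3, h4⟩ := ((is_iff _ _).1 hs p).2 t h1
    exact ⟨Y, h3, (ih p Y h3 t h4 _).not.2 h2⟩

theorem is_dicot (G : Game) : ∀ s, Is G s → Dicot G := by
  induction G using ind with
  | h G ih =>
  intro s hs
  rw [dicot_iff, is_end hs, is_end hs]
  refine ⟨Iff.rfl, fun p Y h => ?_⟩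
  obtain ⟨t, -, h4⟩ := ((is_iff _ _).1 hs p).1 Y h
  exact ih p Y h t h4

theorem dicot_conj (G : Game) : Dicot G → Dicot (conj G) := by
  induction G with
  | mk n o ih => exact fun h => ⟨h.1.symm, fun p i => ih _ i (h.2 _ i)⟩

def gX : Game := .mk (fun p => if p then 2 else 1) fun p i => if p ∧ i.val = 1 then star else zero

def gG : Game := .mk (fun p => if p then 2 else 1) fun p i =>
  if p then (if i.val = 1 then star else zero) else gX

theorem is0 : Is zero (0, 0, 0) := by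
  intro p
  cases p <;> simp [Mv]

theorem is1 : Is star (0, 1, 0) := by
  intro p
  refine ⟨fun _ => ⟨_, by simp [Mv], is0⟩, fun ⟨x, y, z⟩ h => ⟨(0 : Fin 1), ?_⟩⟩
  have : x = 0 ∧ y = 0 ∧ z = 0 := by cases p <;> simp [Mv] at h <;> omega
  obtain ⟨rfl, rfl, rfl⟩ := this
  exact is0

theorem isX : Is gX (1, 0, 0) := by
  intro p
  cases p
  · refine ⟨fun _ => ⟨_, by simp [Mv], is0⟩, fun ⟨x, y, z⟩ h => ⟨(0 : Fin 1), ?_⟩⟩
    have : x = 0 ∧ y = 0 ∧ z = 0 := by simp [Mv] at h; omega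
    obtain ⟨rfl, rfl, rfl⟩ := this
    exact is0
  · refine ⟨fun i => ?_, fun ⟨x, y, z⟩ h => ?_⟩
    · by_cases h : i.val = 1
      · exact ⟨(0, 1, 0), by simp [Mv], by simpa [h] using is1⟩
      · exact ⟨(0, 0, 0), by simp [Mv], by simpa [h] using is0⟩
    · have : x = 0 ∧ (y = 0 ∨ y = 1) ∧ z = 0 := by simp [Mv] at h; omega
      obtain ⟨rfl, rfl | rfl, rfl⟩ := this
      · exact ⟨(0 : Fin 2), is0⟩
      · exact ⟨(1 : Fin 2), is1⟩

theorem isG : Is gG (0, 0, 1) := by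
  intro p
  cases p
  · refine ⟨fun _ => ⟨_, by simp [Mv], isX⟩, fun ⟨x, y, z⟩ h => ⟨(0 : Fin 1), ?_⟩⟩
    have : x = 1 ∧ y = 0 ∧ z = 0 := by simp [Mv] at h; omega
    obtain ⟨rfl, rfl, rfl⟩ := this
    exact isX
  · refine ⟨fun i => ?_, fun ⟨x, y, z⟩ h => ?_⟩
    · by_cases h : i.val = 1
      · exact ⟨(0, 1, 0), by simp [Mv], by simpa [h] using is1⟩
      · exact ⟨(0, 0, 0), by simp [Mv], by simpa [h] using is0⟩
    · have : x = 0 ∧ (y = 0 ∨ y = 1) ∧ z = 0 := by simp [Mv] at h; omega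
      obtain ⟨rfl, rfl | rfl, rfl⟩ := this
      · exact ⟨(0 : Fin 2), is0⟩
      · exact ⟨(1 : Fin 2), is1⟩

theorem good0 : Good zero := ⟨by decide +kernel, fun _ i => i.elim0⟩

theorem good1 : Good star := ⟨by decide +kernel, fun _ _ => good0⟩

theorem goodX : Good gX := ⟨by decide +kernel, fun p i => by
  beta_reduce
  by_cases h : p = true ∧ i.val = 1
  · rw [if_pos h]; exact good1
  · rw [if_neg h]; exact good0⟩

theorem goodG : Good gG := ⟨by decide +kernel, fun p i => by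
  beta_reduce
  by_cases h : p = true
  · rw [if_pos h]
    by_cases h' : i.val = 1
    · rw [if_pos h']; exact good1
    · rw [if_neg h']; exact good0
  · rw [if_neg h]; exact goodX⟩

theorem result : ∃ A K : Set Game, Respects A ∧ Respects K ∧ EvillyNormal A K ∧
    ∃ G ∈ K, Invertible G := by
  have nk : ∀ {G s}, Is G s → (G ∉ {G | ∃ s, Is G s ∧ s.2.2 ≠ 0} ↔ s.2.2 = 0) := by
    intro G s hs
    refine ⟨fun h => by_contra fun h' => h ⟨s, hs, h'⟩, ?_⟩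
    rintro h ⟨t, ht, h'⟩
    exact h' (is_uniq G s t hs ht ▸ h)
  have oe : ∀ {G H s t} (m m' : Bool), Is G s → Is H t → (∀ p, W m s p ↔ W m' t p) →
      out m G = out m' H := by
    intro G H s t m m' hs ht h
    have := fun p => Bool.eq_iff_iff.2 (((is_wins m G s hs p).trans (h p)).trans
      (is_wins m' H t ht p).symm)
    exact Prod.ext (this _) (this _)
  refine ⟨{G | ∃ s, Is G s}, {G | ∃ s, Is G s ∧ s.2.2 ≠ 0},
    fun G H h ⟨s, hs⟩ => ⟨s, is_ident G H s h hs⟩,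
    fun G H h ⟨s, hs, h'⟩ => ⟨s, is_ident G H s h hs, h'⟩,
    ⟨fun G ⟨s, hs⟩ => is_dicot G s hs,
      ⟨fun G ⟨s, hs⟩ H ⟨t, ht⟩ => ⟨_, is_add G s hs H t ht⟩, ?_⟩,
      ⟨fun G ⟨s, hs, _⟩ => ⟨s, hs⟩, ?_, ?_⟩, ?_⟩,
    gG, ⟨_, isG, by simp⟩, is_dicot _ _ isG, conj gG, dicot_conj _ (is_dicot _ _ isG), ?_⟩
  · rintro G ⟨s, hs⟩ p H h
    obtain ⟨t, -, ht⟩ := ((is_iff _ _).1 hs p).1 H h
    exact ⟨t, ht⟩
  · rintro G ⟨s, hs, h⟩
    exact oe _ _ hs hs fun p => by cases p <;> simp [W, h]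
  · rintro G ⟨s, hs⟩ h
    have h' := is_add G s hs star _ is1
    exact ⟨oe _ _ hs h' fun p => by cases p <;> simp [W] <;> omega,
      oe _ _ h' hs fun p => by cases p <;> simp [W] <;> omega⟩
  · rintro G ⟨s, hs⟩ H ⟨t, ht⟩
    rw [nk hs, nk ht, nk (is_add G s hs H t ht)]
    simp
  · intro X hX
    have z : ∀ X, ∀ p, wins true (add zero X) p = true ↔ wins true X p = true := by
      intro X
      induction X using ind with
      | h X ih =>
      intro p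
      have hz : ∀ W, ¬ Opt p zero W := fun W ⟨i, _⟩ => i.elim0
      rw [wins_iff, wins_iff]
      simp only [opt_add, hz, false_and, exists_false, false_or]
      constructor
      · rintro (⟨h, -⟩ | ⟨_, ⟨W, h, rfl⟩, h'⟩)
        · exact Or.inl ⟨fun W hW => h _ ⟨W, hW, rfl⟩, trivial⟩
        · exact Or.inr ⟨W, h, (ih p W h _).not.1 h'⟩
      · rintro (⟨h, -⟩ | ⟨W, h, h'⟩)
        · exact Or.inl ⟨fun _ ⟨W, hW, _⟩ => h W hW, trivial⟩
        · exact Or.inr ⟨_, ⟨W, h, rfl⟩, (ih p W h _).not.2 h'⟩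
    exact Prod.ext (Bool.eq_iff_iff.2 ((mirror X hX gG goodG _).trans (z X _).symm))
      (Bool.eq_iff_iff.2 ((mirror X hX gG goodG _).trans (z X _).symm))

end Pool.Agent.Results.MP_541980_co.Evil
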